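import Pool.Agent.MQG.StmtsU

set_option autoImplicit false

namespace Pool.Agent.MQG.H52

open Pool.Agent.MQG
open scoped InnerProductSpace InnerProduct Topology
open Complex Filter

theorem prt_es_tn {P ι : Type} (κ : P → Type) (p : P) (x : L2 (Σ p, κ p)) (g : L2 ι) :
    prt (es κ) p (tn x g) = tn (prt (Equiv.refl (Σ p, κ p)) p x) g := by
  ext c
  rfl

theorem dss : DssStmt := by
  intro P ι κ U T hUT u y p ζ
  have h2 : (prt (Equiv.refl (Σ p, κ p)) p).comp
      (ContinuousLinearMap.adjoint (emb (Equiv.refl ((Σ p, κ p) × ι)) u)) =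
      (ContinuousLinearMap.adjoint (emb (Equiv.refl (κ p × ι)) u)).comp (prt (es κ) p) := by
    refine ext_tn fun x g => ?_
    rw [ContinuousLinearMap.comp_apply, ContinuousLinearMap.comp_apply, prt_es_tn, tn_eq, tn_eq,
      adj_emb_tl, adj_emb_tl, map_smul]
  have h3 := DFunLike.congr_fun h2 (U (tn ζ y))
  rw [ContinuousLinearMap.comp_apply, ContinuousLinearMap.comp_apply, hUT, prt_es_tn] at h3
  exact h3

end Pool.Agent.MQG.H52
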